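import Pool.Agent.V1127.Iso.Fin

/-!
# MP_28b04d_gt, Q1: `Diff_h` is connected iff the smooth homeomorphisms of corank at most one are

Q1 asks whether the group `Diff_h(CP²)` of the diffeomorphisms acting trivially on homology is
connected. Let `Gen(X, Y)` be the larger space of all smooth homeomorphisms `X → Y` whose
derivatives have corank at most one everywhere (the inverse need not be differentiable, and nothing
is assumed on the set of critical points). The theorem, for closed smooth manifolds of dimension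
`m + 1` (`X = Y = CP²`, `m = 3` in Q1), says that `Diff(X, Y) → Gen(X, Y)` induces a bijection on
smooth path components, and more precisely:

1. every `f` in `Gen(X, Y)` is joined to a diffeomorphism by a smooth path in `Gen(X, Y)`, whose
   graphs lie in a given neighbourhood of the graph of `f` and which is constant outside a given
   open set containing the critical points;
2. two diffeomorphisms which are joined to the same `f` in `Gen(X, Y)` by smooth paths in
   `Gen(X, Y)` are joined by a smooth path of diffeomorphisms;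
3. for every homotopy invariant property `P` of maps `X → Y`: the diffeomorphisms with property
   `P` form one smooth isotopy class (or none) if and only if the same is true for the maps in
   `Gen(X, Y)` with property `P` and smooth paths in `Gen(X, Y)`.

For `X = Y = CP²` and `P`: being the identity on homology, 3 says that Q1 has a positive answer if
and only if any two smooth homeomorphisms of `CP²` of corank at most one which act trivially on
homology are joined by a smooth path of such maps.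

The method for 1: near a critical point, `m` linear coordinates of `f` in a chart are part of a
smooth chart, and along their fibres `f` is strictly monotone; the remaining coordinate is
mollified in boxes, one after the other. The segment between the old and the new map in a chart is
strictly monotone along the same fibres, has the same image, and its other `m` coordinates do not
change; hence it is a smooth path in `Gen(X, Y)`.
-/

set_option autoImplicit false

open Set Filter Topology Function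
open scoped Manifold ContDiff

noncomputable section

namespace Pool.Agent.Results.MP_28b04d_gt.CorankOneComponents

/-- the linear map `L` has rank at least `m`: composed with some linear map it is onto `ℝ^m` -/
def RankAtLeast (m : ℕ) {n : ℕ}
    (L : EuclideanSpace ℝ (Fin n) →L[ℝ] EuclideanSpace ℝ (Fin n)) : Prop :=
  ∃ P : EuclideanSpace ℝ (Fin n) →L[ℝ] EuclideanSpace ℝ (Fin m), Surjective (fun v => P (L v))

section defs

variable (n : ℕ) {X Y : Type} [TopologicalSpace X] [ChartedSpace (EuclideanSpace ℝ (Fin n)) X]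
  [TopologicalSpace Y] [ChartedSpace (EuclideanSpace ℝ (Fin n)) Y]

/-- the derivative of `f` at `x` has rank at least `m` -/
def RankAt (m : ℕ) (f : X → Y) (x : X) : Prop :=
  RankAtLeast m (mfderiv (𝓡 n) (𝓡 n) f x)

/-- `f` is smooth -/
def Smooth (f : X → Y) : Prop := ContMDiff (𝓡 n) (𝓡 n) ∞ f

/-- `f` is a diffeomorphism -/
def Diff (f : X → Y) : Prop := ∃ Φ : X ≃ₘ^∞⟮𝓡 n, 𝓡 n⟯ Y, ∀ x, Φ x = f x

/-- `K` is a smooth family of maps `X → Y`, parametrised by `ℝ` -/
def SmoothFamily (K : ℝ × X → Y) : Prop :=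
  ContMDiff ((𝓘(ℝ, ℝ)).prod (𝓡 n)) (𝓡 n) ∞ K

/-- `f` and `g` are joined by a smooth path of maps in the class `C` -/
def Joined (C : (X → Y) → Prop) (f g : X → Y) : Prop :=
  ∃ K : ℝ × X → Y, SmoothFamily n K ∧ (∀ t ∈ Icc (0 : ℝ) 1, C fun x => K (t, x)) ∧
    (∀ x, K (0, x) = f x) ∧ ∀ x, K (1, x) = g x

/-- `f` is a local diffeomorphism at `x` -/
def LocDiff (f : X → Y) (x : X) : Prop := IsLocalDiffeomorphAt (𝓡 n) (𝓡 n) ∞ f x

end defs

/-- the property `P` of maps is invariant under homotopies -/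
def HomotopyInvariant {X Y : Type} [TopologicalSpace X] [TopologicalSpace Y]
    (P : C(X, Y) → Prop) : Prop := ∀ f g : C(X, Y), f.Homotopic g → P f → P g

section statements

variable (m : ℕ)

/-- `f` is a smooth bijection whose derivatives have rank at least `m` (between manifolds of
dimension `m + 1`) -/
def Gen {X Y : Type} [TopologicalSpace X] [ChartedSpace (EuclideanSpace ℝ (Fin (m + 1))) X]
    [TopologicalSpace Y] [ChartedSpace (EuclideanSpace ℝ (Fin (m + 1))) Y] (f : X → Y) : Prop :=
  Smooth (m + 1) f ∧ Bijective f ∧ ∀ x, RankAt (m + 1) m f x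

/-- maps in the class `Gen` with graphs in `O` which are equal to `f` outside `W` -/
def Near {X Y : Type} [TopologicalSpace X] [ChartedSpace (EuclideanSpace ℝ (Fin (m + 1))) X]
    [TopologicalSpace Y] [ChartedSpace (EuclideanSpace ℝ (Fin (m + 1))) Y] (f : X → Y) (W : Set X)
    (O : Set (X × Y)) (g : X → Y) : Prop :=
  Gen m g ∧ (∀ x, (x, g x) ∈ O) ∧ ∀ x, x ∉ W → g x = f x

variable (X Y : Type) [TopologicalSpace X] [ChartedSpace (EuclideanSpace ℝ (Fin (m + 1))) X]
  [TopologicalSpace Y] [ChartedSpace (EuclideanSpace ℝ (Fin (m + 1))) Y]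

/-- 1: every map in `Gen` is joined to a diffeomorphism by a smooth path in `Gen`, with graphs in
a given neighbourhood `O` of the graph of `f` and constant outside a given open set `W` which
contains all points where `f` is not a local diffeomorphism -/
def Onto : Prop :=
  ∀ f : X → Y, Gen m f → ∀ (W : Set X) (O : Set (X × Y)), IsOpen W → IsOpen O →
    (∀ x, x ∉ W → LocDiff (m + 1) f x) → (∀ x, (x, f x) ∈ O) →
    ∃ φ : X → Y, Diff (m + 1) φ ∧ Joined (m + 1) (Near m f W O) f φ

/-- 2: diffeomorphisms joined to the same map in `Gen` by smooth paths in `Gen` are joined by a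
smooth path of diffeomorphisms -/
def OneToOne : Prop :=
  ∀ f φ ψ : X → Y, Gen m f → Diff (m + 1) φ → Diff (m + 1) ψ → Joined (m + 1) (Gen m) f φ →
    Joined (m + 1) (Gen m) f ψ → Joined (m + 1) (Diff (m + 1)) φ ψ

/-- 3: for each homotopy invariant property `P`, the diffeomorphisms with property `P` are joined
by smooth paths of diffeomorphisms iff the maps in `Gen` with property `P` are joined by smooth
paths in `Gen` -/
def SameQuestion : Prop :=
  ∀ P : C(X, Y) → Prop, HomotopyInvariant P →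
    ((∀ φ ψ : C(X, Y), Diff (m + 1) φ → Diff (m + 1) ψ → P φ → P ψ →
      Joined (m + 1) (Diff (m + 1)) φ ψ) ↔
    ∀ f g : C(X, Y), Gen m f → Gen m g → P f → P g → Joined (m + 1) (Gen m) f g)

end statements

section lemmas

open Pool.Agent.Y522 Pool.Agent.V1127.Iso

variable {m : ℕ} {X Y : Type} [TopologicalSpace X]
  [ChartedSpace (EuclideanSpace ℝ (Fin (m + 1))) X] [TopologicalSpace Y]
  [ChartedSpace (EuclideanSpace ℝ (Fin (m + 1))) Y]

theorem RankAtLeast.le {m n : ℕ}
    {L : EuclideanSpace ℝ (Fin n) →L[ℝ] EuclideanSpace ℝ (Fin n)} (h : RankAtLeast m L) :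
    m ≤ Module.finrank ℝ (LinearMap.range L.toLinearMap) := by
  obtain ⟨P, hP⟩ := h
  have h4 : Surjective (P.toLinearMap ∘ₗ (LinearMap.range L.toLinearMap).subtype) := by
    intro w
    obtain ⟨v, hv⟩ := hP w
    exact ⟨⟨_, LinearMap.mem_range_self _ v⟩, hv⟩
  have h5 := LinearMap.finrank_le_finrank_of_surjective h4
  rwa [finrank_euclideanSpace, Fintype.card_fin] at h5

theorem RankAtLeast.of_le {m : ℕ}
    {L : EuclideanSpace ℝ (Fin (m + 1)) →L[ℝ] EuclideanSpace ℝ (Fin (m + 1))}
    (h : m ≤ Module.finrank ℝ (LinearMap.range L.toLinearMap)) : RankAtLeast m L := by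
  obtain ⟨P, hP⟩ := Pool.Agent.Y170.NA.exists_proj (m := m) (LinearMap.range L.toLinearMap) h
  refine ⟨P, fun y => ?_⟩
  obtain ⟨w, ⟨v, rfl⟩, hw⟩ := hP y
  exact ⟨v, hw⟩

theorem gen_iff (f : X → Y) : Gen m f ↔ Pool.Agent.V1127.Iso.Gen m f :=
  ⟨fun h => ⟨h.1, h.2.1, fun x => (h.2.2 x).le⟩,
    fun h => ⟨h.1, h.2.1, fun x => RankAtLeast.of_le (h.2.2 x)⟩⟩

theorem Joined.pth {f g : X → Y} (h : Joined (m + 1) (Gen m) f g) :
    Pth m univ univ f f g := by
  obtain ⟨K, k1, k2, k3, k4⟩ := h
  have h1 := Pth.of_unit (m := m) (O := univ) (W := univ) (f₀ := f) K k1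
    (fun t ht => (gen_iff _).1 (k2 t ht))
    (fun _ _ _ => mem_univ _) (fun _ _ _ h => absurd (mem_univ _) h)
  rwa [show (fun x => K (0, x)) = f from funext k3, show (fun x => K (1, x)) = g from
    funext k4] at h1

theorem pth_change {f₀ f₁ f g : X → Y} (h : Pth m univ univ f₀ f g) : Pth m univ univ f₁ f g := by
  obtain ⟨K, k1, k2, k3, -, k5, k6⟩ := h
  exact ⟨K, k1, k2, k3, fun _ _ h => absurd (mem_univ _) h, k5, k6⟩

theorem Joined.of_pth {O : Set (X × Y)} {W : Set X} {f₀ f g : X → Y} (h : Pth m O W f₀ f g) :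
    Joined (m + 1) (Near m f₀ W O) f g := by
  obtain ⟨K, k1, k2, k3, k4, k5, k6⟩ := h
  exact ⟨K, k1, fun t _ => ⟨(gen_iff _).2 (k2 t), k3 t, k4 t⟩, k5 0 le_rfl, k6 1 le_rfl⟩

theorem Joined.weaken {C C' : (X → Y) → Prop} (hC : ∀ f, C f → C' f) {f g : X → Y}
    (h : Joined (m + 1) C f g) : Joined (m + 1) C' f g := by
  obtain ⟨K, k1, k2, k3, k4⟩ := h
  exact ⟨K, k1, fun t ht => hC _ (k2 t ht), k3, k4⟩

theorem Diff.ld {f : X → Y} (h : Diff (m + 1) f) :
    Bijective f ∧ ∀ x, LD (m + 1) f x := by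
  obtain ⟨Φ, h⟩ := h
  have h1 : f = Φ := funext fun x => (h x).symm
  rw [h1]
  exact ⟨Φ.bijective, fun x => Φ.isLocalDiffeomorph x⟩

theorem Diff.of_ld {f : X → Y} (hb : Bijective f) (hL : ∀ x, LD (m + 1) f x) :
    Diff (m + 1) f := by
  have hl : IsLocalDiffeomorph (𝓡 (m + 1)) (𝓡 (m + 1)) ∞ f := hL
  exact ⟨hl.diffeomorphOfBijective hb, fun _ => rfl⟩

end lemmas

/-- `Diff(X, Y) → Gen(X, Y)` is a bijection on smooth path components, with control in 1 -/
theorem result (m : ℕ) (X Y : Type) [TopologicalSpace X] [T2Space X] [CompactSpace X]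
    [ChartedSpace (EuclideanSpace ℝ (Fin (m + 1))) X] [IsManifold (𝓡 (m + 1)) ∞ X]
    [TopologicalSpace Y] [T2Space Y]
    [ChartedSpace (EuclideanSpace ℝ (Fin (m + 1))) Y] [IsManifold (𝓡 (m + 1)) ∞ Y] :
    Onto m X Y ∧ OneToOne m X Y ∧ SameQuestion m X Y := by
  have key1 : ∀ f : X → Y, Gen m f → ∀ (W : Set X) (O : Set (X × Y)), IsOpen W →
      IsOpen O → (∀ x, x ∉ W → LocDiff (m + 1) f x) → (∀ x, (x, f x) ∈ O) →
      ∃ φ : X → Y, Diff (m + 1) φ ∧ Pool.Agent.V1127.Iso.Pth m O W f f φ := by
    intro f hf W O hW hO hWL hfO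
    obtain ⟨φ, h1, h2, h3⟩ := Pool.Agent.V1127.Iso.removal_q (m := m) f ((gen_iff f).1 hf) W hW
      hWL O hO hfO
    exact ⟨φ, Diff.of_ld h1 h2, h3⟩
  have key2 : ∀ (f₀ φ ψ : X → Y), Diff (m + 1) φ → Diff (m + 1) ψ →
      Pool.Agent.V1127.Iso.Pth m univ univ f₀ φ ψ →
      Joined (m + 1) (Diff (m + 1)) φ ψ := by
    intro f₀ φ ψ hφ hψ h
    obtain ⟨K, k1, k2, k3, k4, k5⟩ := Pool.Agent.V1127.Iso.diff_path hφ.ld.2 hψ.ld.2 h
    exact ⟨K, k1, fun t _ => Diff.of_ld (k2 t) (k3 t), k4, k5⟩
  have dg : ∀ φ : X → Y, Diff (m + 1) φ → Gen m φ := fun φ hφ =>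
    (gen_iff φ).2 (Pool.Agent.V1127.Iso.Gen.of_LD hφ.ld.1 hφ.ld.2)
  refine ⟨?_, ?_, ?_⟩
  · intro f hf W O hW hO hWL hfO
    obtain ⟨φ, h1, h2⟩ := key1 f hf W O hW hO hWL hfO
    exact ⟨φ, h1, Joined.of_pth h2⟩
  · intro f φ ψ _ hφ hψ h1 h2
    exact key2 f φ ψ hφ hψ (h1.pth.symm.trans h2.pth)
  · intro P hP
    constructor
    · intro h f g hf hg pf pg
      obtain ⟨φ, h1, h2⟩ := key1 f hf univ univ isOpen_univ isOpen_univ
        (fun x hx => absurd (mem_univ x) hx) (fun _ => mem_univ _)
      obtain ⟨ψ, h3, h4⟩ := key1 g hg univ univ isOpen_univ isOpen_univ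
        (fun x hx => absurd (mem_univ x) hx) (fun _ => mem_univ _)
      let φ' : C(X, Y) := ⟨φ, ContMDiff.continuous (dg φ h1).1⟩
      let ψ' : C(X, Y) := ⟨ψ, ContMDiff.continuous (dg ψ h3).1⟩
      have pφ : P φ' := hP f φ' (Pool.Agent.V1127.Iso.Pth.homotopic h2) pf
      have pψ : P ψ' := hP g ψ' (Pool.Agent.V1127.Iso.Pth.homotopic h4) pg
      have h5 : Pool.Agent.V1127.Iso.Pth m univ univ f φ ψ :=
        pth_change (Joined.weaken dg (h φ' ψ' h1 h3 pφ pψ)).pth
      have h6 : Pool.Agent.V1127.Iso.Pth m univ univ f f g :=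
        (h2.trans h5).trans (pth_change h4.symm)
      exact Joined.weaken (fun _ h => h.1) (Joined.of_pth h6)
    · intro h φ ψ hφ hψ pφ pψ
      exact key2 φ φ ψ hφ hψ (h φ ψ (dg φ hφ) (dg ψ hψ) pφ pψ).pth

end Pool.Agent.Results.MP_28b04d_gt.CorankOneComponents
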